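import Mathlib
import Pool.Agent.Helper74.FB.Dense
import Pool.Agent.Helper74.AE.LamPQ

/-! The uniform coloured theorems for the systems `N + b q` with arbitrary (large) constants `b q`, for a
general condition on the prime values. -/

set_option autoImplicit false

namespace Pool.Agent.Helper74.FW

open Finset Filter Topology
open Pool.Agent.Helper74.FB (GdQ Pin)
open Pool.Agent.W25.UN
open Pool.Agent.W25.UB (CopAt)
open Pool.Agent.H410R2 (WW)
open Pool.Agent.TH899.UG
open Pool.Agent.TH899.UG.Uni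
open Pool.Agent.Y827.LS
open Pool.Agent.Y827.GS
open Pool.Agent.Y827.RO
open Pool.Agent.Z296.AP (P2)
open Pool.Agent.Helper74.AE (thmPW thmQW WW_pos)

open Classical in
/-- the lower bound -/
def LowP (T K : ℕ) [NeZero K] (Qσ : (Finset (Fin T)) → (Fin T → Fin K) → Prop) (δ c : ℝ) (D : ℕ) : Prop :=
  ∀ᶠ X : ℕ in atTop,
    ∀ b : Option (Fin (T * K)) → ℤ, Function.Injective b → (∀ q, 64 * |b q| ≤ (X : ℤ)) → ∀ v : ℤ,
    (∀ p ∈ (Icc 1 D).filter Nat.Prime, ∀ q, ¬ (p : ℤ) ∣ v + b q) →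
    c / WW D * (X / (Real.log X) ^ (T * K + 1)) ≤
      (((Icc 1 X).filter (fun N : ℕ => 3 * X ≤ 64 * N ∧ 64 * N ≤ 33 * X ∧ (N : ℤ) ≡ v [ZMOD (WW D : ℕ)] ∧
        GdQ Qσ δ X b N)).card : ℝ)

open Classical in
theorem lowP_of {T K : ℕ} [NeZero K] {δ c : ℝ} (D : ℕ) (hD1 : 1 ≤ D)
    (Pr : (Fin (T * K) → Prop) → Prop)
    (Qσ : (Finset (Fin T)) → (Fin T → Fin K) → Prop)
    (hPr : ∀ pr : Fin (T * K) → Prop, Pr pr → ∃ S : Finset (Fin T), ∃ σ : Fin T → Fin K,
      Qσ S σ ∧ ∀ g ∈ S, pr (ix g (σ g)))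
    (H : ∀ᶠ N : ℕ in atTop, ∀ (h : Fin (T * K) → ℤ) (Mo : ℕ), HB h Mo N →
      Nd (fun _ => (1 : ℤ)) h Mo → PosR (fun _ => (1 : ℤ)) h Mo N → ∀ v : ℕ,
      CopAt (fun _ => (1 : ℤ)) h D Mo v →
      c / WW D * (N / (Real.log N) ^ (T * K + 1)) ≤
        (((Icc 1 N).filter (fun n : ℕ => n ≡ v [MOD (WW D)] ∧
        (N : ℝ) / 16 ≤ n ∧ (n : ℝ) ≤ N / 2 ∧
        (∀ p : ℕ, p.Prime → Real.log p ≤ δ * Real.log N → ∀ q,
          ¬ p ∣ LZ (uB (fun _ : Fin (T * K) => (1 : ℤ))) (wB h Mo) q n) ∧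
        (∀ g : Fin T, ∃ i, cl i = g ∧ P2 (Fm (fun _ => (1 : ℤ)) h Mo i n)) ∧
        Pr (fun i => (Fm (fun _ => (1 : ℤ)) h Mo i n).toNat.Prime))).card : ℝ)) :
    LowP T K Qσ δ c D := by
  have hW : 0 < WW D := WW_pos D
  have hWZ : (0 : ℤ) < (WW D : ℕ) := by exact_mod_cast hW
  unfold LowP
  filter_upwards [H, eventually_ge_atTop 3] with X hX hX3
  intro b hb hbX v hcop
  set h : Fin (T * K) → ℤ := fun i => b (some i) - b none with hh
  have hX0 : (0 : ℤ) ≤ X := Nat.cast_nonneg X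
  have habs : ∀ i, 32 * |h i| ≤ (X : ℤ) := by
    intro i
    have h1 := hbX (some i)
    have h2 := hbX none
    have h3 : |h i| ≤ |b (some i)| + |b none| := abs_sub _ _
    linarith
  have hHB : HB h 0 X := by
    intro i
    have h1 := habs i
    have h2 : (0 : ℤ) ≤ |h i| := abs_nonneg _
    rw [Nat.cast_zero, zero_add]
    linarith
  have hNd : Nd (fun _ => (1 : ℤ)) h 0 := by
    intro j l hjl
    rcases j with _ | j <;> rcases l with _ | l
    · exact absurd rfl hjl
    · simp only [uB, wB]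
      intro h0
      have h5 : b (some l) = b none := by
        simp only [hh] at h0
        push_cast at h0
        linarith
      exact absurd (hb h5) (by simp)
    · simp only [uB, wB]
      intro h0
      have h5 : b (some j) = b none := by
        simp only [hh] at h0
        push_cast at h0
        linarith
      exact absurd (hb h5) (by simp)
    · simp only [uB, wB]
      intro h0
      have h5 : b (some j) = b (some l) := by
        simp only [hh] at h0
        push_cast at h0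
        linarith
      exact hjl (hb h5)
  have hPR : PosR (fun _ => (1 : ℤ)) h 0 X := by
    intro i x hx1 hx2
    have h5 : (32 : ℝ) * |(h i : ℝ)| ≤ X := by
      have : ((32 * |h i| : ℤ) : ℝ) ≤ ((X : ℤ) : ℝ) := by exact_mod_cast habs i
      push_cast at this
      exact this
    have h6 := neg_abs_le (h i : ℝ)
    push_cast
    linarith
  set v' : ℕ := ((v + b none) % (WW D : ℕ)).toNat with hv'
  have hv'e : ((v' : ℕ) : ℤ) = (v + b none) % (WW D : ℕ) := by
    rw [hv', Int.toNat_of_nonneg (Int.emod_nonneg _ hWZ.ne')]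
  have hv'm : ((v' : ℕ) : ℤ) ≡ v + b none [ZMOD (WW D : ℕ)] := by
    rw [hv'e]
    exact Int.mod_modEq _ _
  have hcopp : ∀ p ∈ (Icc 1 D).filter Nat.Prime, (p : ℤ) ∣ ((WW D : ℕ) : ℤ) := by
    intro p hp
    rw [WW]
    exact_mod_cast dvd_prod_of_mem _ hp
  have hCop : CopAt (fun _ => (1 : ℤ)) h D 0 v' := by
    intro j n hn
    have key : ∃ q, ∀ z : ℤ, z ∣ ((WW D : ℕ) : ℤ) → z ∣ uB (fun _ : Fin (T * K) => (1 : ℤ)) j * n + wB h 0 j →
        z ∣ v + b q := by
      have e1 : n ≡ v + b none [ZMOD (WW D : ℕ)] := hn.trans hv'm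
      rcases j with _ | j
      · refine ⟨none, fun z hz1 hz2 => ?_⟩
        simp only [uB, wB, one_mul, add_zero] at hz2
        have e2 : (((WW D : ℕ) : ℤ)) ∣ v + b none - n := e1.dvd
        have e3 := dvd_add (hz1.trans e2) hz2
        rwa [sub_add_cancel] at e3
      · refine ⟨some j, fun z hz1 hz2 => ?_⟩
        simp only [uB, wB, one_mul] at hz2
        have e2 : (((WW D : ℕ) : ℤ)) ∣ v + b none - n := e1.dvd
        have e3 := dvd_add (hz1.trans e2) hz2
        have e4 : v + b none - n + (n + (((0 : ℕ) : ℤ) + h j)) = v + b (some j) := by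
          simp only [hh]
          push_cast
          ring
        rwa [e4] at e3
    obtain ⟨q, hq⟩ := key
    rw [Int.isCoprime_iff_gcd_eq_one]
    by_contra hg
    obtain ⟨p, hp, hpd⟩ := Nat.exists_prime_and_dvd hg
    have h1 : (p : ℤ) ∣ uB (fun _ : Fin (T * K) => (1 : ℤ)) j * n + wB h 0 j :=
      (Int.natCast_dvd_natCast.2 hpd).trans (Int.gcd_dvd_left ..)
    have h2 : (p : ℤ) ∣ ((WW D : ℕ) : ℤ) := (Int.natCast_dvd_natCast.2 hpd).trans (Int.gcd_dvd_right ..)
    have h3 : p ∣ WW D := by exact_mod_cast h2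
    have h4 : p ∈ (Icc 1 D).filter Nat.Prime := by
      rw [WW, (Nat.prime_iff.1 hp).dvd_finsetProd_iff] at h3
      obtain ⟨r, hr, hpr⟩ := h3
      have : p = r := (Nat.prime_dvd_prime_iff_eq hp (mem_filter.1 hr).2).1 hpr
      rwa [this]
    exact hcop p h4 q (hq p h2 h1)
  have hmain := hX h 0 hHB hNd hPR v' hCop
  refine hmain.trans ?_
  rw [Nat.cast_le]
  apply card_le_card_of_injOn (fun n : ℕ => ((n : ℤ) - b none).toNat)
  · intro n hn
    rw [Finset.mem_coe] at hn
    obtain ⟨hn1, hnv, hn0, hn2, hn4, hn7, hn5⟩ := mem_filter.1 hn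
    have hbn := hbX none
    have hbn1 := le_abs_self (b none)
    have hbn2 := neg_abs_le (b none)
    have hn0' : (X : ℤ) ≤ 16 * n := by
      have : (X : ℝ) ≤ 16 * n := by linarith
      exact_mod_cast this
    have hn2' : 2 * (n : ℤ) ≤ X := by
      have : 2 * (n : ℝ) ≤ X := by linarith
      exact_mod_cast this
    have hpos : 0 ≤ (n : ℤ) - b none := by linarith
    obtain ⟨N, hN⟩ : ∃ N : ℕ, (N : ℤ) = (n : ℤ) - b none := ⟨_, Int.toNat_of_nonneg hpos⟩
    have hNt : ((n : ℤ) - b none).toNat = N := by rw [← hN, Int.toNat_natCast]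
    simp only
    rw [hNt, Finset.mem_coe, mem_filter, mem_Icc]
    have hX3' : (3 : ℤ) ≤ X := by exact_mod_cast hX3
    have hFm : ∀ i, Fm (fun _ => (1 : ℤ)) h 0 i n = (N : ℤ) + b (some i) := by
      intro i
      unfold Fm
      simp only [hh]
      rw [hN]
      push_cast
      ring
    refine ⟨⟨by omega, by omega⟩, by omega, by omega, ?_, ?_, ?_⟩
    · have h1 : (n : ℤ) ≡ v + b none [ZMOD (WW D : ℕ)] :=
        ((Int.natCast_modEq_iff).2 hnv).trans hv'm
      rw [hN]
      have h2 := h1.sub_right (b none)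
      rwa [add_sub_cancel_right] at h2
    · intro q p hp hpl hd
      rcases q with _ | i
      · apply hn4 p hp hpl none
        unfold LZ
        simp only [uB, wB]
        have e3 : (N : ℤ) + b none = 1 * (n : ℤ) + 0 := by rw [hN]; ring
        rw [e3] at hd
        exact Int.natCast_dvd.1 hd
      · apply hn4 p hp hpl (some i)
        unfold LZ
        simp only [uB, wB]
        have e3 : (N : ℤ) + b (some i) = 1 * (n : ℤ) + (((0 : ℕ) : ℤ) + h i) := by
          simp only [hh]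
          rw [hN]
          push_cast
          ring
        rw [e3] at hd
        exact Int.natCast_dvd.1 hd
    · obtain ⟨S, σ, hS, hσ⟩ := hPr _ hn5
      have hex2 : ∀ g : Fin T, ∃ s : Fin K, P2 (Fm (fun _ => (1 : ℤ)) h 0 (ix g s) n) := by
        intro g
        obtain ⟨i, hi1, hi2⟩ := hn7 g
        refine ⟨sx i, ?_⟩
        rw [← hi1, ix_cl]
        exact hi2
      choose τ hτ using hex2
      refine ⟨S, σ, τ, hS, fun g => ?_, fun g hg => ?_⟩
      · rw [← hFm]
        exact hτ g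
      · rw [← hFm]
        exact hσ g hg
  · intro n hn n' hn' hnn
    rw [Finset.mem_coe] at hn hn'
    obtain ⟨-, -, hn0, -⟩ := mem_filter.1 hn
    obtain ⟨-, -, hn0', -⟩ := mem_filter.1 hn'
    have hbn := hbX none
    have hbn1 := le_abs_self (b none)
    have e1 : (X : ℤ) ≤ 16 * n := by
      have : (X : ℝ) ≤ 16 * n := by linarith
      exact_mod_cast this
    have e2 : (X : ℤ) ≤ 16 * n' := by
      have : (X : ℝ) ≤ 16 * n' := by linarith
      exact_mod_cast this
    simp only at hnn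
    have h1 : 0 ≤ (n : ℤ) - b none := by linarith
    have h2 : 0 ≤ (n' : ℤ) - b none := by linarith
    have h3 : (n : ℤ) - b none = (n' : ℤ) - b none := by
      rw [← Int.toNat_of_nonneg h1, ← Int.toNat_of_nonneg h2, hnn]
    have h4 : (n : ℤ) = n' := by linarith
    exact_mod_cast h4

/-- a prescribed index is prime -/
theorem lowP_one (T : ℕ) (hT : 1 ≤ T) : ∃ K : ℕ, ∃ _ : NeZero K, 2 ≤ K ∧ ∃ δ : ℝ,
    0 < δ ∧ ∃ D₀ : ℕ, ∃ c : ℝ, 0 < c ∧ ∀ D : ℕ, D₀ ≤ D → ∀ (g₀ : Fin T) (i₀ : Fin K),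
      LowP T K (fun S σ => g₀ ∈ S ∧ σ g₀ = i₀) δ c D := by
  classical
  obtain ⟨K, hK, δ, hδ, D₀, c, hc, H⟩ := thmQW T hT
  have hKz : NeZero K := ⟨by omega⟩
  refine ⟨K, hKz, hK, δ, hδ, D₀ + 1, c, hc, fun D hD g₀ i₀ => ?_⟩
  apply lowP_of D (by omega) (fun pr => pr (ix g₀ i₀))
  · intro pr hpr
    refine ⟨{g₀}, fun _ => i₀, ⟨mem_singleton_self _, rfl⟩, fun g hg => ?_⟩
    rw [mem_singleton] at hg
    rw [hg]
    exact hpr
  · filter_upwards [H D (by omega) (fun _ => 1) cl Pool.Agent.TH899.UG.Uni.card_cl (fun _ => trivial)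
      (fun _ => one_ne_zero) (fun _ => by simp; omega)] with N hN
    intro h Mo h1 h2 h3 v h4
    convert hN h Mo h1 h2 h3 v h4 (ix g₀ i₀)

end Pool.Agent.Helper74.FW
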