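import Mathlib
import Pool.Agent.Helper74.FW.Low

/-! Several constants `N j`: nested patterns of shifts, with a prescribed prime and almost primes. -/

set_option autoImplicit false

namespace Pool.Agent.Helper74.FW

open Finset Filter Topology
open Pool.Agent.Helper74.FB (GdQ Pin PrV ApV prV_of apV_P2)
open Pool.Agent.H410R2 (WW)
open Pool.Agent.Helper74.AE (WW_pos)
open Pool.Agent.TH899.UG.Uni
open Pool.Agent.Z296.AP (P2)

/-- the number `N` has no small prime factor in `N + e h`, `h ∈ C`, `N + e h₀` is prime and the `N + e h`,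
`h ∈ P`, have at most two prime factors -/
def GoodQ (D : ℕ) (δ : ℝ) (X : ℕ) (e : ℕ → ℤ) (v : ℤ) (C : Finset ℕ) (h₀ : ℕ) (P : Finset ℕ) (N : ℕ) : Prop :=
  (3 * X ≤ 64 * N ∧ 64 * N ≤ 33 * X) ∧ (N : ℤ) ≡ v [ZMOD (WW D : ℕ)] ∧
    (∀ h ∈ C, ∀ p : ℕ, p.Prime → Real.log p ≤ δ * Real.log X → ¬ (p : ℤ) ∣ (N : ℤ) + e h) ∧
    PrV ((N : ℤ) + e h₀) ∧ ∀ h ∈ P, ApV 2 ((N : ℤ) + e h)

open Classical in
theorem stepQ (r : ℕ) : ∃ L : ℕ, r + 1 ≤ L ∧ ∃ δ : ℝ, 0 < δ ∧ ∃ D₀ : ℕ, ∀ D : ℕ, D₀ ≤ D →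
    ∃ c : ℝ, 0 < c ∧ ∃ X₀ : ℕ, ∀ X : ℕ, X₀ ≤ X → ∀ H : Finset ℕ, H.card = L → ∀ h₀ ∈ H, ∀ e : ℕ → ℤ,
    (∀ h ∈ H, ∀ h' ∈ H, e h = e h' → h = h') → (∀ h ∈ H, 64 * |e h| ≤ (X : ℤ)) → ∀ v : ℤ,
    (∀ p ∈ (Icc 1 D).filter Nat.Prime, ∀ h ∈ H, ¬ (p : ℤ) ∣ v + e h) →
    ∃ P ⊆ H.erase h₀, P.card = r ∧ ∃ G ⊆ Icc 1 X, c * (X / Real.log X ^ L) ≤ (G.card : ℝ) ∧
      ∀ N ∈ G, GoodQ D δ X e v H h₀ P N := by
  obtain ⟨K, hKz, hK2, δ, hδ, D₀, c, hc, H0⟩ := lowP_one (r + 1) (by omega)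
  have hLr : r + 1 ≤ (r + 1) * K + 1 := by nlinarith
  refine ⟨(r + 1) * K + 1, hLr, δ, hδ, D₀, fun D hD => ?_⟩
  obtain ⟨g₀, hg₀⟩ : ∃ g₀ : Fin (r + 1), g₀ = 0 := ⟨_, rfl⟩
  obtain ⟨i₀, hi₀⟩ : ∃ i₀ : Fin K, i₀ = 0 := ⟨_, rfl⟩
  have HL : LowP (r + 1) K (Pin g₀ i₀) δ c D := H0 D hD g₀ i₀
  have hW : 0 < WW D := WW_pos D
  have hWr : (0 : ℝ) < WW D := by exact_mod_cast hW
  have hK0 : 0 < K := by omega
  obtain ⟨Pn, hPn⟩ : ∃ Pn : ℕ, Pn = K ^ (r + 1) := ⟨_, rfl⟩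
  have hPn0 : 0 < Pn := by rw [hPn]; positivity
  have hPnr : (0 : ℝ) < Pn := by exact_mod_cast hPn0
  obtain ⟨X₀, hX₀⟩ := eventually_atTop.1 HL
  refine ⟨c / WW D / Pn, by positivity, max X₀ 129, ?_⟩
  intro X hX H hH h₀ hh₀ e he hbd v hv
  have hXX₀ : X₀ ≤ X := (le_max_left _ _).trans hX
  have hX129 : 129 ≤ X := (le_max_right _ _).trans hX
  have hcard : Fintype.card (Option (Fin ((r + 1) * K))) = Fintype.card {x // x ∈ H} := by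
    rw [Fintype.card_option, Fintype.card_fin, Fintype.card_coe, hH]
  obtain ⟨φ, hφ⟩ : ∃ φ : Option (Fin ((r + 1) * K)) ≃ {x // x ∈ H}, φ (some (ix g₀ i₀)) = ⟨h₀, hh₀⟩ := by
    obtain ⟨φ₀⟩ : Nonempty (Option (Fin ((r + 1) * K)) ≃ {x // x ∈ H}) := ⟨Fintype.equivOfCardEq hcard⟩
    refine ⟨φ₀.trans (Equiv.swap (φ₀ (some (ix g₀ i₀))) ⟨h₀, hh₀⟩), ?_⟩
    rw [Equiv.trans_apply, Equiv.swap_apply_left]
  have h1 := hX₀ X hXX₀ (fun q => e (φ q)) (by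
    intro q q' hqq
    exact φ.injective (Subtype.ext (he _ (φ q).2 _ (φ q').2 hqq))) (fun q => hbd _ (φ q).2) v
    (fun p hp q => hv p hp _ (φ q).2)
  set U : Finset ℕ := (Icc 1 X).filter (fun N : ℕ => 3 * X ≤ 64 * N ∧ 64 * N ≤ 33 * X ∧
    (N : ℤ) ≡ v [ZMOD (WW D : ℕ)] ∧ GdQ (Pin g₀ i₀) δ X (fun q => e (φ q)) N) with hU
  obtain ⟨Pt, hPt⟩ : ∃ Pt : (Fin (r + 1) → Fin K) → Finset ℕ, Pt = fun τ =>
      (univ.erase g₀).image (fun g => (φ (some (ix g (τ g))) : ℕ)) := ⟨_, rfl⟩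
  set Gs : (Fin (r + 1) → Fin K) → Finset ℕ := fun τ =>
    (Icc 1 X).filter (fun N : ℕ => GoodQ D δ X e v H h₀ (Pt τ) N) with hGs
  have hsub : U ⊆ univ.biUnion Gs := by
    intro N hN
    obtain ⟨hN1, hN2, hN2', hN3, hN4, S, σ, τ, hS, hτ, hσ⟩ := mem_filter.1 hN
    refine mem_biUnion.2 ⟨τ, mem_univ _, ?_⟩
    refine mem_filter.2 ⟨hN1, ⟨hN2, hN2'⟩, hN3, ?_, ?_, ?_⟩
    · intro h hh p hp hpl
      have h2 := hN4 (φ.symm ⟨h, hh⟩) p hp hpl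
      simp only [Equiv.apply_symm_apply] at h2
      exact h2
    · have h2 := prV_of (hσ g₀ hS.1)
      rw [hS.2] at h2
      simp only [hφ] at h2
      exact h2
    · intro h hh
      rw [hPt] at hh
      obtain ⟨g, -, rfl⟩ := mem_image.1 hh
      apply apV_P2 _ (hτ g)
      have h3 := hbd _ (φ (some (ix g (τ g)))).2
      have h4 := neg_abs_le (e (φ (some (ix g (τ g)))))
      have h5 : 3 * (X : ℤ) ≤ 64 * (N : ℤ) := by exact_mod_cast hN2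
      have h6 : (129 : ℤ) ≤ X := by exact_mod_cast hX129
      simp only
      linarith
  have hbig : ∃ q, c / WW D / Pn * (X / Real.log X ^ ((r + 1) * K + 1)) ≤ ((Gs q).card : ℝ) := by
    have hlogX : 0 < Real.log X := Real.log_pos (by exact_mod_cast (by omega : 1 < X))
    have hX0 : (0 : ℝ) < X := by exact_mod_cast (by omega : 0 < X)
    by_contra hcon
    push Not at hcon
    have e1 := (Nat.cast_le (α := ℝ)).2 ((card_le_card hsub).trans card_biUnion_le)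
    rw [Nat.cast_sum] at e1
    have e2 := h1.trans e1
    have e4 : ∑ q : Fin (r + 1) → Fin K, ((Gs q).card : ℝ) <
        ∑ _q : Fin (r + 1) → Fin K, c / WW D / Pn * (X / Real.log X ^ ((r + 1) * K + 1)) :=
      Finset.sum_lt_sum_of_nonempty ⟨fun _ => i₀, mem_univ _⟩ (fun q _ => hcon q)
    rw [Finset.sum_const, nsmul_eq_mul, card_univ, Fintype.card_fun, Fintype.card_fin, Fintype.card_fin,
      ← hPn] at e4
    have e6 : (Pn : ℝ) * (c / WW D / Pn * (X / Real.log X ^ ((r + 1) * K + 1))) =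
        c / WW D * (X / Real.log X ^ ((r + 1) * K + 1)) := by
      field_simp
    linarith
  obtain ⟨τ, hq2⟩ := hbig
  have hinj : Function.Injective (fun g : Fin (r + 1) => (φ (some (ix g (τ g))) : ℕ)) := by
    intro g g' hgg
    have e1 := φ.injective (Subtype.ext hgg)
    have e2 := Option.some_injective _ e1
    have e3 := finProdFinEquiv.injective e2
    exact (Prod.ext_iff.1 e3).1
  refine ⟨Pt τ, fun y hy => ?_, ?_, Gs τ, filter_subset _ _, hq2, fun N hN => (mem_filter.1 hN).2⟩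
  · rw [hPt] at hy
    obtain ⟨g, hg, rfl⟩ := mem_image.1 hy
    refine mem_erase.2 ⟨fun h0 => ?_, (φ _).2⟩
    have e1 : φ (some (ix g (τ g))) = φ (some (ix g₀ i₀)) := by
      rw [hφ]
      exact Subtype.ext h0
    have e2 := Option.some_injective _ (φ.injective e1)
    have e3 := finProdFinEquiv.injective e2
    exact (mem_erase.1 hg).1 (Prod.ext_iff.1 e3).1
  · rw [hPt]
    simp only
    rw [card_image_of_injective _ hinj, card_erase_of_mem (mem_univ _), card_univ, Fintype.card_fin]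
    omega

theorem GoodQ.mono {D : ℕ} {δ δ' : ℝ} {X : ℕ} {e : ℕ → ℤ} {v : ℤ} {C : Finset ℕ} {h₀ : ℕ} {P P' : Finset ℕ}
    {N : ℕ} (h : GoodQ D δ X e v C h₀ P N) (hδ : δ' ≤ δ) (hX : 0 ≤ Real.log X) (hP : P' ⊆ P) :
    GoodQ D δ' X e v C h₀ P' N :=
  ⟨h.1, h.2.1, fun x hx p hp hpl => h.2.2.1 x hx p hp (hpl.trans (mul_le_mul_of_nonneg_right hδ hX)),
    h.2.2.2.1, fun x hx => h.2.2.2.2 x (hP hx)⟩

theorem nestQ (J : ℕ) : ∀ r : ℕ, ∃ (K : ℕ) (k : Fin J → ℕ) (δ : ℝ) (D₀ : ℕ), 0 < δ ∧ r + 1 ≤ K ∧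
    ∀ D : ℕ, D₀ ≤ D → ∃ c : ℝ, 0 < c ∧ ∃ X₀ : ℕ, ∀ X : ℕ, X₀ ≤ X → ∀ H : Finset ℕ, H.card = K →
    ∀ h₀ ∈ H, ∀ e : Fin J → ℕ → ℤ, (∀ j, ∀ h ∈ H, ∀ h' ∈ H, e j h = e j h' → h = h') →
    (∀ j, ∀ h ∈ H, 64 * |e j h| ≤ (X : ℤ)) → ∀ v : Fin J → ℤ,
    (∀ j, ∀ p ∈ (Icc 1 D).filter Nat.Prime, ∀ h ∈ H, ¬ (p : ℤ) ∣ v j + e j h) →
    ∃ (C : Fin J → Finset ℕ) (P : Finset ℕ) (G : Fin J → Finset ℕ),
      (∀ j, C j ⊆ H ∧ (C j).card = k j) ∧ P ⊆ H.erase h₀ ∧ P.card = r ∧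
      ∀ j, G j ⊆ Icc 1 X ∧ c * (X / Real.log X ^ k j) ≤ ((G j).card : ℝ) ∧
        ∀ N ∈ G j, GoodQ D δ X (e j) (v j) (C j) h₀ P N := by
  induction J with
  | zero =>
    intro r
    refine ⟨r + 1, Fin.elim0, 1, 0, one_pos, le_rfl, fun D _ => ⟨1, one_pos, 0, ?_⟩⟩
    intro X _ H hH h₀ hh₀ e _ _ v _
    exact ⟨Fin.elim0, H.erase h₀, Fin.elim0, fun j => j.elim0, Subset.rfl,
      by rw [card_erase_of_mem hh₀, hH]; omega, fun j => j.elim0⟩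
  | succ J ih =>
    intro r
    obtain ⟨L, hL, δ₁, hδ₁, D₁, h1⟩ := stepQ r
    obtain ⟨K, k, δ₂, D₂, hδ₂, hK, h2⟩ := ih (L - 1)
    refine ⟨K, Fin.cons L k, min δ₁ δ₂, max D₁ D₂, lt_min hδ₁ hδ₂, by omega, fun D hD => ?_⟩
    obtain ⟨c₁, hc₁, X₁, h1'⟩ := h1 D ((le_max_left _ _).trans hD)
    obtain ⟨c₂, hc₂, X₂, h2'⟩ := h2 D ((le_max_right _ _).trans hD)
    refine ⟨min c₁ c₂, lt_min hc₁ hc₂, max (max X₁ X₂) 1, ?_⟩
    intro X hX H hH h₀ hh₀ e he hbd v hv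
    have hX1 : X₁ ≤ X := ((le_max_left _ _).trans (le_max_left _ _)).trans hX
    have hX2 : X₂ ≤ X := ((le_max_right _ _).trans (le_max_left _ _)).trans hX
    have hX3 : 1 ≤ X := (le_max_right _ _).trans hX
    have hlog : 0 ≤ Real.log X := Real.log_nonneg (by exact_mod_cast hX3)
    obtain ⟨C, P, G, hC, hP, hPc, hG⟩ := h2' X hX2 H hH h₀ hh₀ (fun j => e j.succ) (fun j => he j.succ)
      (fun j => hbd j.succ) (fun j => v j.succ) (fun j => hv j.succ)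
    obtain ⟨H', hH'⟩ : ∃ H' : Finset ℕ, H' = insert h₀ P := ⟨_, rfl⟩
    have hPn : h₀ ∉ P := fun h => (mem_erase.1 (hP h)).1 rfl
    have hH'c : H'.card = L := by
      rw [hH', card_insert_of_notMem hPn, hPc]
      omega
    have hH'H : H' ⊆ H := by
      rw [hH']
      exact insert_subset hh₀ (hP.trans (erase_subset _ _))
    have hH'e : H'.erase h₀ = P := by rw [hH', erase_insert hPn]
    obtain ⟨P', hP', hPc', G', hG'1, hG'2, hG'3⟩ := h1' X hX1 H' hH'c h₀ (by rw [hH']; exact mem_insert_self _ _)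
      (e 0) (fun h hh h' hh' => he 0 h (hH'H hh) h' (hH'H hh')) (fun h hh => hbd 0 h (hH'H hh)) (v 0)
      (fun p hp h hh => hv 0 p hp h (hH'H hh))
    rw [hH'e] at hP'
    refine ⟨Fin.cons H' C, P', Fin.cons G' G, ?_, hP'.trans hP, hPc', ?_⟩
    · intro j
      refine Fin.cases ?_ (fun i => ?_) j
      · simp only [Fin.cons_zero]
        exact ⟨hH'H, hH'c⟩
      · simp only [Fin.cons_succ]
        exact hC i
    · have hq : ∀ t : ℕ, 0 ≤ (X : ℝ) / Real.log X ^ t := fun t => by positivity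
      intro j
      refine Fin.cases ?_ (fun i => ?_) j
      · simp only [Fin.cons_zero]
        refine ⟨hG'1, (mul_le_mul_of_nonneg_right (min_le_left _ _) (hq L)).trans hG'2, fun N hN => ?_⟩
        exact (hG'3 N hN).mono (min_le_left _ _) hlog Subset.rfl
      · simp only [Fin.cons_succ]
        obtain ⟨g1, g2, g3⟩ := hG i
        refine ⟨g1, (mul_le_mul_of_nonneg_right (min_le_right _ _) (hq (k i))).trans g2, fun N hN => ?_⟩
        exact (g3 N hN).mono (min_le_right _ _) hlog hP'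

end Pool.Agent.Helper74.FW
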