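import Mathlib
import Pool.Agent.Helper74.FW.QStep
import Pool.Agent.Helper74.FB.JSec
import Pool.Agent.Helper74.FB.Gen

/-! Several constants `N j`: the abstract theorem with a prescribed prime and almost primes. -/

set_option autoImplicit false

namespace Pool.Agent.Helper74.FW

open Finset Filter Topology
open Pool.Agent.Helper74.FB (PrV ApV EJ secJ prod_scale Us fin_alg2)
open Pool.Agent.Erdos456
open Pool.Agent.H410R2 (WW)
open Pool.Agent.Helper74.OR (pz)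
open Pool.Agent.Helper74.AE (WW_pos)

open Classical in
theorem absJQ (J r : ℕ) : ∃ (K : ℕ) (k : Fin J → ℕ) (D₀ : ℕ), r + 1 ≤ K ∧ ∀ D : ℕ, D₀ ≤ D →
    ∀ c₁ C₁ b : ℝ, 0 < c₁ → 1 ≤ C₁ → 0 ≤ b → ∃ κ : ℝ, 0 < κ ∧ ∃ X₀ : ℕ, ∀ X : ℕ, X₀ ≤ X →
    ∀ H : Finset ℕ, H.card = K → ∀ h₀ ∈ H, ∀ (R : Finset ℕ) (e : ℕ → Fin J → ℕ → ℤ) (Bad : ℕ → ℕ → Prop) (𝓜 : ℝ),
    0 < 𝓜 →
    (∀ m ∈ R, ∀ j, ∀ h ∈ H, ∀ h' ∈ H, e m j h = e m j h' → h = h') →
    (∀ m ∈ R, ∀ m' ∈ R, ¬ Bad m m' → ∀ j, ∀ h ∈ H, ∀ h' ∈ H, e m j h ≠ e m' j h') →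
    (∀ m ∈ R, ((R.filter (fun m' => Bad m m')).card : ℝ) ≤ b) →
    ((R.card : ℕ) : ℝ) ≤ C₁ * 𝓜 → c₁ * 𝓜 ≤ R.card →
    (∀ j, ∀ h ∈ H, ∀ h' ∈ H, h ≠ h' → ∑ m ∈ R, GG (e m j h - e m j h').natAbs ^ EJ k ≤ C₁ * 𝓜) →
    (∀ m ∈ R, ∀ j, ∀ h ∈ H, ∀ h' ∈ H, ∑ m' ∈ R, GG (e m' j h - e m j h').natAbs ^ EJ k ≤ C₁ * 𝓜) →
    Real.log X ^ (∑ j, k j) ≤ 𝓜 →
    (∀ m ∈ R, ∀ j, ∀ h ∈ H, 64 * |e m j h| ≤ (X : ℤ)) → ∀ v : Fin J → ℤ,
    (∀ m ∈ R, ∀ j, ∀ p ∈ (Icc 1 D).filter Nat.Prime, ∀ h ∈ H, ¬ (p : ℤ) ∣ v j + e m j h) →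
    κ * (X : ℝ) ^ J ≤ (((Fintype.piFinset (fun _ : Fin J => Icc 1 X)).filter (fun N =>
      (∀ j, (3 * X ≤ 64 * N j ∧ 64 * N j ≤ 33 * X) ∧ (N j : ℤ) ≡ v j [ZMOD (WW D : ℕ)]) ∧ ∃ P ⊆ H.erase h₀, P.card = r ∧
        κ * (𝓜 / Real.log X ^ (∑ j, k j)) ≤
          ((R.filter (fun m => ∀ j, PrV ((N j : ℤ) + e m j h₀) ∧ ∀ h ∈ P, ApV 2 ((N j : ℤ) + e m j h))).card : ℝ))).card : ℝ) := by
  obtain ⟨K, k, δ, D₀, hδ, hrK, hn⟩ := nestQ J r
  obtain ⟨C, hC, X₁, hsec⟩ := secJ J k δ hδ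
  refine ⟨K, k, D₀, hrK, fun D hD c₁ C₁ b hc₁ hC₁ hb => ?_⟩
  obtain ⟨c, hc, X₂, hn'⟩ := hn D hD
  obtain ⟨Tn, hTn⟩ : ∃ Tn : ℕ, Tn = (2 ^ K) ^ J * 2 ^ K := ⟨_, rfl⟩
  have hTn0 : 0 < Tn := by rw [hTn]; positivity
  have hTnr : (0 : ℝ) < Tn := by exact_mod_cast hTn0
  obtain ⟨κ₁, hκ₁⟩ : ∃ κ₁ : ℝ, κ₁ = c₁ / Tn * c ^ J := ⟨_, rfl⟩
  have hκ₁0 : 0 < κ₁ := by rw [hκ₁]; positivity
  obtain ⟨C₂, hC₂⟩ : ∃ C₂ : ℝ, C₂ = C * (1 + b) * C₁ ^ 2 := ⟨_, rfl⟩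
  have hC₂0 : 0 < C₂ := by rw [hC₂]; positivity
  refine ⟨min (κ₁ ^ 2 / (8 * C₂)) (κ₁ / 2), lt_min (by positivity) (by positivity), max X₁ (max X₂ 3), ?_⟩
  intro X hX H hH h₀ hh₀ R e Bad 𝓜 h𝓜0 hinj hinj2 hbad hRC hRc hin hcr hLM hbd v hcop
  have hXX₁ : X₁ ≤ X := (le_max_left _ _).trans hX
  have hXX₂ : X₂ ≤ X := ((le_max_left _ _).trans (le_max_right _ _)).trans hX
  have hX3 : 3 ≤ X := ((le_max_right _ _).trans (le_max_right _ _)).trans hX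
  have hlogX : 0 < Real.log X := Real.log_pos (by exact_mod_cast (by omega : 1 < X))
  have hX0 : (0 : ℝ) < X := by exact_mod_cast (by omega : 0 < X)
  obtain ⟨L, hL⟩ : ∃ L : ℝ, L = Real.log X ^ (∑ j, k j) := ⟨_, rfl⟩
  have hL0 : 0 < L := by rw [hL]; positivity
  rw [← hL] at hLM ⊢
  -- the data of the `m`
  choose! Cm Pm Gm hCm hPm hPmc hGm using fun (m : ℕ) (hm : m ∈ R) => hn' X hXX₂ H hH h₀ hh₀ (e m) (hinj m hm)
    (hbd m hm) v (hcop m hm)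
  obtain ⟨Ty, hTy⟩ : ∃ Ty : Finset ((Fin J → Finset ℕ) × Finset ℕ),
      Ty = (Fintype.piFinset (fun _ : Fin J => H.powerset)) ×ˢ H.powerset := ⟨_, rfl⟩
  have hTyc : Ty.card = Tn := by
    rw [hTy, card_product, Fintype.card_piFinset, prod_const, card_univ, Fintype.card_fin, card_powerset, hH, hTn]
  have hTyne : Ty.Nonempty := by
    rw [← card_pos, hTyc]
    exact hTn0
  obtain ⟨⟨C₀, P₀⟩, -, hR'⟩ := exists_le_card_fiber_of_nsmul_le_card_of_maps_to (s := R) (t := Ty)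
    (f := fun m => (Cm m, Pm m)) (b := (R.card : ℝ) / Tn) (by
      intro m hm
      rw [hTy, mem_product, Fintype.mem_piFinset]
      exact ⟨fun j => mem_powerset.2 (hCm m hm j).1, mem_powerset.2 ((hPm m hm).trans (erase_subset _ _))⟩) hTyne (by
      rw [hTyc, nsmul_eq_mul]
      apply le_of_eq
      field_simp)
  obtain ⟨R', hR'e⟩ : ∃ R' : Finset ℕ, R' = R.filter (fun m => (Cm m, Pm m) = (C₀, P₀)) := ⟨_, rfl⟩
  rw [← hR'e] at hR'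
  have hsubR : R' ⊆ R := by rw [hR'e]; exact filter_subset _ _
  have hRm : ∀ m ∈ R', m ∈ R ∧ Cm m = C₀ ∧ Pm m = P₀ := by
    intro m hm
    rw [hR'e] at hm
    obtain ⟨h1, h2⟩ := mem_filter.1 hm
    exact ⟨h1, (Prod.ext_iff.1 h2).1, (Prod.ext_iff.1 h2).2⟩
  have hR'pos : 0 < (R'.card : ℝ) := by
    refine lt_of_lt_of_le ?_ hR'
    have : 0 < (R.card : ℝ) := lt_of_lt_of_le (by positivity) hRc
    positivity
  obtain ⟨m₀, hm₀⟩ : R'.Nonempty := by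
    rw [← card_pos]
    exact_mod_cast hR'pos
  have hP₀ : P₀ ⊆ H.erase h₀ ∧ P₀.card = r := by
    obtain ⟨h1, -, h3⟩ := hRm m₀ hm₀
    rw [← h3]
    exact ⟨hPm m₀ h1, hPmc m₀ h1⟩
  have hC₀ : ∀ j, C₀ j ⊆ H ∧ (C₀ j).card = k j := by
    obtain ⟨h1, h2, -⟩ := hRm m₀ hm₀
    rw [← h2]
    exact hCm m₀ h1
  have hG : ∀ m ∈ R', ∀ j, Gm m j ⊆ Icc 1 X ∧ c * (X / Real.log X ^ k j) ≤ ((Gm m j).card : ℝ) ∧
      ∀ N ∈ Gm m j, GoodQ D δ X (e m j) (v j) (C₀ j) h₀ P₀ N := by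
    intro m hm j
    obtain ⟨h1, h2, h3⟩ := hRm m hm
    rw [← h2, ← h3]
    exact hGm m h1 j
  have hGU : ∀ m ∈ R', ∀ j, Gm m j ⊆ Us ((C₀ j).image (e m j)) δ X := by
    intro m hm j N hN
    obtain ⟨g1, -, g3⟩ := hG m hm j
    unfold Us
    refine mem_filter.2 ⟨g1 hN, ?_⟩
    intro z hz p hp hpl
    obtain ⟨h, hh, rfl⟩ := mem_image.1 hz
    exact (g3 N hN).2.2.1 h hh p hp hpl
  -- the counting function
  set U : Finset (Fin J → ℕ) := Fintype.piFinset (fun _ : Fin J => Icc 1 X) with hU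
  have hUc : (U.card : ℝ) = (X : ℝ) ^ J := by
    rw [hU, Fintype.card_piFinset, prod_const, card_univ, Fintype.card_fin, Nat.card_Icc, Nat.add_sub_cancel]
    push_cast
    rfl
  set f : (Fin J → ℕ) → ℝ := fun N => ∑ m ∈ R', if (∀ j, N j ∈ Gm m j) then (1 : ℝ) else 0 with hf
  have hfirst : (κ₁ * 𝓜 / L) * (U.card : ℝ) ≤ ∑ N ∈ U, f N := by
    simp only [hf]
    rw [sum_comm]
    have h1 : ∀ m ∈ R', c ^ J * ((X : ℝ) ^ J / L) ≤ ∑ N ∈ U, if (∀ j, N j ∈ Gm m j) then (1 : ℝ) else 0 := by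
      intro m hm
      have h2 : U.filter (fun N => ∀ j, N j ∈ Gm m j) = Fintype.piFinset (Gm m) := by
        ext N
        rw [mem_filter, hU, Fintype.mem_piFinset, Fintype.mem_piFinset]
        constructor
        · exact fun h => h.2
        · exact fun h => ⟨fun j => (hG m hm j).1 (h j), h⟩
      rw [← sum_filter, h2, sum_const, nsmul_eq_mul, mul_one, Fintype.card_piFinset, Nat.cast_prod]
      have h3 := prod_scale k 1 c X (Real.log X) (fun _ => (1 : ℝ))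
      rw [prod_const_one, mul_one, one_mul, ← hL] at h3
      rw [← h3]
      apply Finset.prod_le_prod
      · intro j _
        positivity
      · intro j _
        rw [mul_one, one_mul]
        exact (hG m hm j).2.1
    have h4 : (R'.card : ℝ) * (c ^ J * ((X : ℝ) ^ J / L)) ≤
        ∑ m ∈ R', ∑ N ∈ U, if (∀ j, N j ∈ Gm m j) then (1 : ℝ) else 0 := by
      rw [← nsmul_eq_mul, ← sum_const]
      exact sum_le_sum h1
    refine le_trans ?_ h4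
    rw [hUc]
    have h5 : c₁ * 𝓜 / Tn ≤ (R'.card : ℝ) := by
      refine le_trans ?_ hR'
      exact div_le_div_of_nonneg_right hRc hTnr.le
    calc κ₁ * 𝓜 / L * (X : ℝ) ^ J = (c₁ * 𝓜 / Tn) * (c ^ J * ((X : ℝ) ^ J / L)) := by
          rw [hκ₁]; ring
      _ ≤ _ := mul_le_mul_of_nonneg_right h5 (by positivity)
  have hpz := pz U f (κ₁ * 𝓜 / L) (by positivity) hfirst
  rw [hUc] at hpz
  have hsecond : ∑ N ∈ U, f N ^ 2 ≤ ∑ m ∈ R', ∑ m' ∈ R', ∏ j, (((Us ((C₀ j).image (e m j)) δ X ∩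
      Us ((C₀ j).image (e m' j)) δ X).card : ℕ) : ℝ) := by
    have h1 : ∀ N, f N ^ 2 = ∑ m ∈ R', ∑ m' ∈ R',
        if (∀ j, N j ∈ Gm m j ∩ Gm m' j) then (1 : ℝ) else 0 := by
      intro N
      simp only [hf]
      rw [sq, sum_mul_sum]
      apply sum_congr rfl
      intro m _
      apply sum_congr rfl
      intro m' _
      by_cases h1 : ∀ j, N j ∈ Gm m j
      · by_cases h2 : ∀ j, N j ∈ Gm m' j
        · rw [if_pos h1, if_pos h2, if_pos (fun j => mem_inter.2 ⟨h1 j, h2 j⟩), mul_one]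
        · rw [if_neg h2, mul_zero, if_neg (fun h => h2 fun j => (mem_inter.1 (h j)).2)]
      · rw [if_neg h1, zero_mul, if_neg (fun h => h1 fun j => (mem_inter.1 (h j)).1)]
    simp only [h1]
    rw [sum_comm]
    apply sum_le_sum
    intro m hm
    rw [sum_comm]
    apply sum_le_sum
    intro m' hm'
    rw [← sum_filter, sum_const, nsmul_eq_mul, mul_one]
    have h2 : U.filter (fun N => ∀ j, N j ∈ Gm m j ∩ Gm m' j) ⊆
        Fintype.piFinset (fun j => Us ((C₀ j).image (e m j)) δ X ∩ Us ((C₀ j).image (e m' j)) δ X) := by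
      intro N hN
      rw [Fintype.mem_piFinset]
      intro j
      have h3 := mem_inter.1 ((mem_filter.1 hN).2 j)
      exact mem_inter.2 ⟨hGU m hm j h3.1, hGU m' hm' j h3.2⟩
    have h4 := card_le_card h2
    rw [Fintype.card_piFinset] at h4
    exact_mod_cast h4
  have hGG0 : ∀ z : ℤ, 0 ≤ GG z.natAbs ^ EJ k := fun z => pow_nonneg (GG_nonneg _) _
  have hS := hsec X hXX₁ R' e C₀ Bad b C₁ 𝓜 hC₁ h𝓜0.le hb (fun j => (hC₀ j).2)
    (fun m hm j h hh h' hh' => hinj m (hsubR hm) j h ((hC₀ j).1 hh) h' ((hC₀ j).1 hh'))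
    (fun m hm m' hm' hb' j h hh h' hh' =>
      hinj2 m (hsubR hm) m' (hsubR hm') hb' j h ((hC₀ j).1 hh) h' ((hC₀ j).1 hh'))
    (fun m hm => by
      refine le_trans ?_ (hbad m (hsubR hm))
      rw [Nat.cast_le]
      exact card_le_card (filter_subset_filter _ hsubR))
    ((Nat.cast_le.2 (card_le_card hsubR)).trans hRC)
    (fun j h hh h' hh' hne => by
      refine le_trans ?_ (hin j h ((hC₀ j).1 hh) h' ((hC₀ j).1 hh') hne)
      exact sum_le_sum_of_subset_of_nonneg hsubR fun m _ _ => hGG0 _)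
    (fun m hm j h hh h' hh' => by
      refine le_trans ?_ (hcr m (hsubR hm) j h ((hC₀ j).1 hh) h' ((hC₀ j).1 hh'))
      exact sum_le_sum_of_subset_of_nonneg hsubR fun m _ _ => hGG0 _)
  have hL2 : Real.log X ^ (2 * ∑ j, k j) = L ^ 2 := by rw [hL]; ring
  rw [hL2, ← hL, ← hC₂] at hS
  have hfin := fin_alg2 κ₁ C₂ 𝓜 ((X : ℝ) ^ J) L _ _ hC₂0 h𝓜0 (by positivity) hL0 (Nat.cast_nonneg _) hLM hpz
    (hsecond.trans hS)
  refine (mul_le_mul_of_nonneg_right (min_le_left _ _) (by positivity)).trans (hfin.trans ?_)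
  rw [Nat.cast_le]
  apply card_le_card
  intro N hN
  obtain ⟨hN1, hN2⟩ := mem_filter.1 hN
  have hfe : f N = ((R'.filter (fun m => ∀ j, N j ∈ Gm m j)).card : ℝ) := by
    simp only [hf]
    rw [← sum_filter, sum_const, nsmul_eq_mul, mul_one]
  have hpos : 0 < f N := lt_of_lt_of_le (by positivity) hN2
  have hne : (R'.filter (fun m => ∀ j, N j ∈ Gm m j)).Nonempty := by
    rw [← Finset.card_pos]
    rw [hfe] at hpos
    exact_mod_cast hpos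
  obtain ⟨m, hm⟩ := hne
  obtain ⟨hm1, hm2⟩ := mem_filter.1 hm
  refine mem_filter.2 ⟨hN1, fun j => ?_, P₀, hP₀.1, hP₀.2, ?_⟩
  · have h3 := (hG m hm1 j).2.2 (N j) (hm2 j)
    exact ⟨h3.1, h3.2.1⟩
  · calc min (κ₁ ^ 2 / (8 * C₂)) (κ₁ / 2) * (𝓜 / L) ≤ κ₁ / 2 * (𝓜 / L) :=
          mul_le_mul_of_nonneg_right (min_le_right _ _) (by positivity)
      _ = κ₁ * 𝓜 / L / 2 := by ring
      _ ≤ f N := hN2
      _ ≤ _ := by
        rw [hfe, Nat.cast_le]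
        apply card_le_card
        intro m hm
        obtain ⟨h1, h2⟩ := mem_filter.1 hm
        refine mem_filter.2 ⟨hsubR h1, fun j => ?_⟩
        exact ((hG m h1 j).2.2 (N j) (h2 j)).2.2.2

end Pool.Agent.Helper74.FW
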