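import Mathlib
import Pool.Agent.Helper74.FB.JMain
import Pool.Agent.Helper74.FW.Low

/-! Several constants `N j` in a short range: nested patterns of shifts. -/

set_option autoImplicit false

namespace Pool.Agent.Helper74.FW

open Finset Filter Topology
open Pool.Agent.Helper74.FB (GdQ Mny PrV prV_of)
open Pool.Agent.H410R2 (WW)
open Pool.Agent.Helper74.AE (thmPW WW_pos)
open Pool.Agent.TH899.UG.Uni
open Pool.Agent.Z296.AP (P2)

/-- many groups contain a prime -/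
theorem lowP_many (T M : ℕ) (hTM : (18 / 5 : ℝ) * M < T) : ∃ K : ℕ, ∃ _ : NeZero K, 2 ≤ K ∧ ∃ δ : ℝ,
    0 < δ ∧ ∃ D₀ : ℕ, ∃ c : ℝ, 0 < c ∧ ∀ D : ℕ, D₀ ≤ D → LowP T K (Mny M) δ c D := by
  classical
  obtain ⟨K, hK, δ, hδ, D₀, c, hc, H⟩ := thmPW T T M le_rfl hTM
  have hKz : NeZero K := ⟨by omega⟩
  refine ⟨K, hKz, hK, δ, hδ, D₀ + 1, c, hc, fun D hD => ?_⟩
  apply lowP_of D (by omega)
    (fun pr => M + 1 ≤ ((univ : Finset (Fin T)).filter (fun g => ∃ i, cl i = g ∧ pr i)).card)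
  · intro pr hpr
    set S : Finset (Fin T) := (univ : Finset (Fin T)).filter (fun g => ∃ i, cl i = g ∧ pr i) with hS
    have hex : ∀ g : Fin T, ∃ s : Fin K, g ∈ S → pr (ix g s) := by
      intro g
      by_cases hg : g ∈ S
      · obtain ⟨i, hi1, hi2⟩ := (mem_filter.1 hg).2
        refine ⟨sx i, fun _ => ?_⟩
        rw [← hi1, ix_cl]
        exact hi2
      · exact ⟨0, fun h => absurd h hg⟩
    choose σ hσ using hex
    exact ⟨S, σ, hpr, hσ⟩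
  · filter_upwards [H D (by omega) (fun _ => 1) cl Pool.Agent.TH899.UG.Uni.card_cl (fun _ => trivial)
      (fun _ => one_ne_zero) (fun _ => by simp; omega)] with N hN
    intro h Mo h1 h2 h3 v h4
    convert hN h Mo h1 h2 h3 v h4 univ (by rw [card_univ, Fintype.card_fin])

/-- the number `N` has no small prime factor in `N + e h`, `h ∈ C`, and `N + e h` is prime for `h ∈ P` -/
def GoodN (D : ℕ) (δ : ℝ) (X : ℕ) (e : ℕ → ℤ) (v : ℤ) (C P : Finset ℕ) (N : ℕ) : Prop :=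
  (3 * X ≤ 64 * N ∧ 64 * N ≤ 33 * X) ∧ (N : ℤ) ≡ v [ZMOD (WW D : ℕ)] ∧
    (∀ h ∈ C, ∀ p : ℕ, p.Prime → Real.log p ≤ δ * Real.log X → ¬ (p : ℤ) ∣ (N : ℤ) + e h) ∧
    ∀ h ∈ P, PrV ((N : ℤ) + e h)

open Classical in
theorem stepP (r : ℕ) (hr : 1 ≤ r) : ∃ L : ℕ, r ≤ L ∧ ∃ δ : ℝ, 0 < δ ∧ ∃ D₀ : ℕ, ∀ D : ℕ, D₀ ≤ D →
    ∃ c : ℝ, 0 < c ∧ ∃ X₀ : ℕ, ∀ X : ℕ, X₀ ≤ X → ∀ H : Finset ℕ, H.card = L → ∀ e : ℕ → ℤ,
    (∀ h ∈ H, ∀ h' ∈ H, e h = e h' → h = h') → (∀ h ∈ H, 64 * |e h| ≤ (X : ℤ)) → ∀ v : ℤ,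
    (∀ p ∈ (Icc 1 D).filter Nat.Prime, ∀ h ∈ H, ¬ (p : ℤ) ∣ v + e h) →
    ∃ P ⊆ H, P.card = r ∧ ∃ G ⊆ Icc 1 X, c * (X / Real.log X ^ L) ≤ (G.card : ℝ) ∧
      ∀ N ∈ G, GoodN D δ X e v H P N := by
  have hr' : (1 : ℝ) ≤ r := by exact_mod_cast hr
  obtain ⟨K, hKz, hK2, δ, hδ, D₀, c, hc, H0⟩ := lowP_many (4 * r) r (by
    push_cast
    linarith)
  have hLr : r ≤ 4 * r * K + 1 := by nlinarith
  refine ⟨4 * r * K + 1, hLr, δ, hδ, D₀, fun D hD => ?_⟩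
  have HL : LowP (4 * r) K (Mny r) δ c D := H0 D hD
  have hW : 0 < WW D := WW_pos D
  have hWr : (0 : ℝ) < WW D := by exact_mod_cast hW
  have hK0 : 0 < K := by omega
  obtain ⟨Pn, hPn⟩ : ∃ Pn : ℕ, Pn = 2 ^ (4 * r) * K ^ (4 * r) := ⟨_, rfl⟩
  have hPn0 : 0 < Pn := by rw [hPn]; positivity
  have hPnr : (0 : ℝ) < Pn := by exact_mod_cast hPn0
  obtain ⟨X₀, hX₀⟩ := eventually_atTop.1 HL
  refine ⟨c / WW D / Pn, by positivity, max X₀ 129, ?_⟩
  intro X hX H hH e he hbd v hv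
  have hXX₀ : X₀ ≤ X := (le_max_left _ _).trans hX
  have hX129 : 129 ≤ X := (le_max_right _ _).trans hX
  have hcard : Fintype.card (Option (Fin (4 * r * K))) = Fintype.card {x // x ∈ H} := by
    rw [Fintype.card_option, Fintype.card_fin, Fintype.card_coe, hH]
  obtain ⟨φ⟩ : Nonempty (Option (Fin (4 * r * K)) ≃ {x // x ∈ H}) := ⟨Fintype.equivOfCardEq hcard⟩
  have h1 := hX₀ X hXX₀ (fun q => e (φ q)) (by
    intro q q' hqq
    exact φ.injective (Subtype.ext (he _ (φ q).2 _ (φ q').2 hqq))) (fun q => hbd _ (φ q).2) v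
    (fun p hp q => hv p hp _ (φ q).2)
  set U : Finset ℕ := (Icc 1 X).filter (fun N : ℕ => 3 * X ≤ 64 * N ∧ 64 * N ≤ 33 * X ∧
    (N : ℤ) ≡ v [ZMOD (WW D : ℕ)] ∧ GdQ (Mny r) δ X (fun q => e (φ q)) N) with hU
  set Gs : Finset (Fin (4 * r)) × (Fin (4 * r) → Fin K) → Finset ℕ := fun q =>
    (Icc 1 X).filter (fun N : ℕ => GoodN D δ X e v H (q.1.image (fun g => (φ (some (ix g (q.2 g))) : ℕ))) N)
    with hGs
  set QQ : Finset (Finset (Fin (4 * r)) × (Fin (4 * r) → Fin K)) := univ.filter (fun q => r ≤ q.1.card) with hQQ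
  have hsub : U ⊆ QQ.biUnion Gs := by
    intro N hN
    obtain ⟨hN1, hN2, hN2', hN3, hN4, S, σ, τ, hS, -, hσ⟩ := mem_filter.1 hN
    refine mem_biUnion.2 ⟨(S, σ), mem_filter.2 ⟨mem_univ _, (Nat.le_succ r).trans hS⟩, ?_⟩
    refine mem_filter.2 ⟨hN1, ⟨hN2, hN2'⟩, hN3, ?_, ?_⟩
    · intro h hh p hp hpl
      have h2 := hN4 (φ.symm ⟨h, hh⟩) p hp hpl
      simp only [Equiv.apply_symm_apply] at h2
      exact h2
    · intro h hh
      obtain ⟨g, hg, rfl⟩ := mem_image.1 hh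
      exact prV_of (hσ g hg)
  have hbig : ∃ q ∈ QQ, c / WW D / Pn * (X / Real.log X ^ (4 * r * K + 1)) ≤ ((Gs q).card : ℝ) := by
    have hlogX : 0 < Real.log X := Real.log_pos (by exact_mod_cast (by omega : 1 < X))
    have hX0 : (0 : ℝ) < X := by exact_mod_cast (by omega : 0 < X)
    by_contra hcon
    push Not at hcon
    have e1 := (Nat.cast_le (α := ℝ)).2 ((card_le_card hsub).trans card_biUnion_le)
    rw [Nat.cast_sum] at e1
    have e2 := h1.trans e1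
    have e3 : (QQ.card : ℝ) ≤ Pn := by
      have : QQ.card ≤ Pn := by
        refine (card_le_univ _).trans ?_
        rw [Fintype.card_prod, Fintype.card_finset, Fintype.card_fun, Fintype.card_fin,
          Fintype.card_fin, hPn]
      exact_mod_cast this
    rcases QQ.eq_empty_or_nonempty with hQe | hQne
    · rw [hQe, Finset.sum_empty] at e2
      have : 0 < c / WW D * (X / Real.log X ^ (4 * r * K + 1)) := by positivity
      linarith
    · have e4 : ∑ q ∈ QQ, ((Gs q).card : ℝ) < ∑ _q ∈ QQ, c / WW D / Pn * (X / Real.log X ^ (4 * r * K + 1)) :=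
        Finset.sum_lt_sum_of_nonempty hQne hcon
      rw [Finset.sum_const, nsmul_eq_mul] at e4
      have e5 : (QQ.card : ℝ) * (c / WW D / Pn * (X / Real.log X ^ (4 * r * K + 1))) ≤
          Pn * (c / WW D / Pn * (X / Real.log X ^ (4 * r * K + 1))) :=
        mul_le_mul_of_nonneg_right e3 (by positivity)
      have e6 : (Pn : ℝ) * (c / WW D / Pn * (X / Real.log X ^ (4 * r * K + 1))) =
          c / WW D * (X / Real.log X ^ (4 * r * K + 1)) := by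
        field_simp
      linarith
  obtain ⟨q, hq, hq2⟩ := hbig
  have hinj : Function.Injective (fun g : Fin (4 * r) => (φ (some (ix g (q.2 g))) : ℕ)) := by
    intro g g' hgg
    have e1 := φ.injective (Subtype.ext hgg)
    have e2 := Option.some_injective _ e1
    have e3 := finProdFinEquiv.injective e2
    exact (Prod.ext_iff.1 e3).1
  obtain ⟨P, hP, hPc⟩ := exists_subset_card_eq (s := q.1.image (fun g => (φ (some (ix g (q.2 g))) : ℕ)))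
    (n := r) (by rw [card_image_of_injective _ hinj]; exact (mem_filter.1 hq).2)
  refine ⟨P, fun y hy => ?_, hPc, Gs q, filter_subset _ _, hq2, fun N hN => ?_⟩
  · obtain ⟨g, _, rfl⟩ := mem_image.1 (hP hy)
    exact (φ _).2
  · obtain ⟨-, k1, k2, k3, k4⟩ := mem_filter.1 hN
    exact ⟨k1, k2, k3, fun h hh => k4 h (hP hh)⟩

theorem GoodN.mono {D : ℕ} {δ δ' : ℝ} {X : ℕ} {e : ℕ → ℤ} {v : ℤ} {C P P' : Finset ℕ} {N : ℕ}
    (h : GoodN D δ X e v C P N) (hδ : δ' ≤ δ) (hX : 0 ≤ Real.log X) (hP : P' ⊆ P) :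
    GoodN D δ' X e v C P' N :=
  ⟨h.1, h.2.1, fun x hx p hp hpl => h.2.2.1 x hx p hp (hpl.trans (mul_le_mul_of_nonneg_right hδ hX)),
    fun x hx => h.2.2.2 x (hP hx)⟩

theorem nest (J : ℕ) : ∀ r : ℕ, 1 ≤ r → ∃ (K : ℕ) (k : Fin J → ℕ) (δ : ℝ) (D₀ : ℕ), 0 < δ ∧ r ≤ K ∧
    ∀ D : ℕ, D₀ ≤ D → ∃ c : ℝ, 0 < c ∧ ∃ X₀ : ℕ, ∀ X : ℕ, X₀ ≤ X → ∀ H : Finset ℕ, H.card = K →
    ∀ e : Fin J → ℕ → ℤ, (∀ j, ∀ h ∈ H, ∀ h' ∈ H, e j h = e j h' → h = h') →
    (∀ j, ∀ h ∈ H, 64 * |e j h| ≤ (X : ℤ)) → ∀ v : Fin J → ℤ,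
    (∀ j, ∀ p ∈ (Icc 1 D).filter Nat.Prime, ∀ h ∈ H, ¬ (p : ℤ) ∣ v j + e j h) →
    ∃ (C : Fin J → Finset ℕ) (P : Finset ℕ) (G : Fin J → Finset ℕ),
      (∀ j, C j ⊆ H ∧ (C j).card = k j) ∧ P ⊆ H ∧ P.card = r ∧
      ∀ j, G j ⊆ Icc 1 X ∧ c * (X / Real.log X ^ k j) ≤ ((G j).card : ℝ) ∧
        ∀ N ∈ G j, GoodN D δ X (e j) (v j) (C j) P N := by
  induction J with
  | zero =>
    intro r hr
    refine ⟨r, Fin.elim0, 1, 0, one_pos, le_rfl, fun D _ => ⟨1, one_pos, 0, ?_⟩⟩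
    intro X _ H hH e _ _ v _
    exact ⟨Fin.elim0, H, Fin.elim0, fun j => j.elim0, Subset.rfl, hH, fun j => j.elim0⟩
  | succ J ih =>
    intro r hr
    obtain ⟨L, hL, δ₁, hδ₁, D₁, h1⟩ := stepP r hr
    obtain ⟨K, k, δ₂, D₂, hδ₂, hK, h2⟩ := ih L (hr.trans hL)
    refine ⟨K, Fin.cons L k, min δ₁ δ₂, max D₁ D₂, lt_min hδ₁ hδ₂, hL.trans hK, fun D hD => ?_⟩
    obtain ⟨c₁, hc₁, X₁, h1'⟩ := h1 D ((le_max_left _ _).trans hD)
    obtain ⟨c₂, hc₂, X₂, h2'⟩ := h2 D ((le_max_right _ _).trans hD)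
    refine ⟨min c₁ c₂, lt_min hc₁ hc₂, max (max X₁ X₂) 1, ?_⟩
    intro X hX H hH e he hbd v hv
    have hX1 : X₁ ≤ X := ((le_max_left _ _).trans (le_max_left _ _)).trans hX
    have hX2 : X₂ ≤ X := ((le_max_right _ _).trans (le_max_left _ _)).trans hX
    have hX3 : 1 ≤ X := (le_max_right _ _).trans hX
    have hlog : 0 ≤ Real.log X := Real.log_nonneg (by exact_mod_cast hX3)
    obtain ⟨C, P, G, hC, hP, hPc, hG⟩ := h2' X hX2 H hH (fun j => e j.succ) (fun j => he j.succ)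
      (fun j => hbd j.succ) (fun j => v j.succ) (fun j => hv j.succ)
    obtain ⟨P', hP', hPc', G', hG'1, hG'2, hG'3⟩ := h1' X hX1 P hPc (e 0)
      (fun h hh h' hh' => he 0 h (hP hh) h' (hP hh')) (fun h hh => hbd 0 h (hP hh)) (v 0)
      (fun p hp h hh => hv 0 p hp h (hP hh))
    refine ⟨Fin.cons P C, P', Fin.cons G' G, ?_, hP'.trans hP, hPc', ?_⟩
    · intro j
      refine Fin.cases ?_ (fun i => ?_) j
      · simp only [Fin.cons_zero]
        exact ⟨hP, hPc⟩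
      · simp only [Fin.cons_succ]
        exact hC i
    · have hq : ∀ t : ℕ, 0 ≤ (X : ℝ) / Real.log X ^ t := fun t => by positivity
      intro j
      refine Fin.cases ?_ (fun i => ?_) j
      · simp only [Fin.cons_zero]
        refine ⟨hG'1, (mul_le_mul_of_nonneg_right (min_le_left _ _) (hq L)).trans hG'2, fun N hN => ?_⟩
        exact (hG'3 N hN).mono (min_le_left _ _) hlog Subset.rfl
      · simp only [Fin.cons_succ]
        obtain ⟨g1, g2, g3⟩ := hG i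
        refine ⟨g1, (mul_le_mul_of_nonneg_right (min_le_right _ _) (hq (k i))).trans g2, fun N hN => ?_⟩
        exact (g3 N hN).mono (min_le_right _ _) hlog hP'

end Pool.Agent.Helper74.FW
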